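import Pool.Agent.Lib.MP_21a058_co.Lim5.Pow
import Pool.Agent.Lib.MP_21a058_co.CycleL

/-! `f(a, b) ≤ x + c ⌈x ^ (1 / 14)⌉ ^ 13 = x + O(x ^ (13 / 14))` with `x = 2 (sum of a) + f(b)`
and one absolute constant `c`, for all tuples `a`, `b`, and the asymptotic value of
`f(l, 1, …, 1)`. -/

set_option autoImplicit false

namespace Pool.Agent.Results.MP_21a058_co.AsymptoticBound

open Finset Pool.Agent.Lib.MP_21a058_co

/-- There is one constant `c` such that for every tuple `ks`, every selection `g` of parts of it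
and all `k`, `k'` and `q ≥ 1`: if `k'` suffices for the selected parts and, with
`x = 2 (sum of the parts that are not selected) + k'`, `x ≤ q ^ 14` and `x + c q ^ 13 ≤ k`, then
`k` suffices for `ks`. For the tuples `(l, 1, …, 1)` with `s` ones this is asymptotically sharp:
`f ≥ 2 s + l - 1`. -/
theorem result : (∃ c : ℕ, ∀ (r : ℕ) (ks : Fin r → ℕ) (m : ℕ)
    (g : Fin m → Fin r), Function.Injective g → ∀ k k' x q : ℕ,
    Arrow k' (fun i => ks (g i)) →
    x = 2 * (∑ i ∈ univ \ univ.image g, ks i) + k' →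
    1 ≤ q → x ≤ q ^ 14 → x + c * q ^ 13 ≤ k →
    Arrow k ks) ∧
    ∀ s l k : ℕ, Arrow k (Fin.cons l (fun _ => 1) : Fin (s + 1) → ℕ) → 2 * s + l ≤ k + 1 := by
  constructor
  · obtain ⟨c, hc⟩ := Lim5.arrow_pow
    refine ⟨c, fun r ks m g hg k k' x q hA hx hq hxq h =>
      hc r ks m g hg k k' x q hA (hx.trans ?_) hq hxq h⟩
    have e : ∀ x y : Finset (Fin r), (∀ i, i ∈ x ↔ i ∈ y) → ∑ i ∈ x, ks i = ∑ i ∈ y, ks i :=
      fun x y hxy => by rw [Finset.ext hxy]
    refine congrArg (fun n => 2 * n + k') (e _ _ fun i => ?_)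
    simp only [mem_sdiff, mem_image, mem_univ, true_and]
  · intro s l k h
    have h1 := CycleL.cycle_bound k (s + 1) _ h
    rw [Fin.sum_univ_succ] at h1
    simp only [Fin.cons_zero, Fin.cons_succ, sum_const, card_univ, Fintype.card_fin,
      smul_eq_mul] at h1
    omega

end Pool.Agent.Results.MP_21a058_co.AsymptoticBound
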