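import Pool.Agent.Lib.MP_21a058_co.Slack3.Main99
import Pool.Agent.Lib.MP_21a058_co.Slack3.EndG
import Pool.Agent.Lib.MP_21a058_co.Slack3.Final
import Pool.Agent.Lib.MP_21a058_co.Slack3.OddKf
import Pool.Agent.Lib.MP_21a058_co.Slack3.All93
import Pool.Agent.Lib.MP_21a058_co.Slack3.Bal93
import Pool.Agent.Lib.MP_21a058_co.Slack3.AllOdd36

/-! Let some of the parts have an odd sum `a ≥ 3`, and let `S` be the sum of all parts. Then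
`f(k_1, …, k_r) ≥ S + 3` in each of these cases: `S ≥ 34 a + 33`; `S` even, `S ≥ 24 a + 24`;
`S ≡ 2 (mod 4)`, `2 a < S ≤ 15 a / 7`; `S` even and `|q (a + 1) - h (S + 2)| ≥ 10 q + 300` for all
integers `h` and `1 ≤ q ≤ 60`; `a = 3` and `S ≥ 86`, or `S` even and at least `46`, or
`S = 38, 42`, or `S ≡ 1 (mod 4)` and `S ≥ 73`. So for every even `S` all but a bounded number of
the pairs of odd `a`, `b` with `a + b = S` have `f(a, b) ≥ a + b + 3`: `a + b + 2` is not enough. -/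

set_option autoImplicit false

namespace Pool.Agent.Results.MP_21a058_co.DeVosBoundFails

open Finset Pool.Agent.Lib.MP_21a058_co

theorem even_case (k r : ℕ) (ks : Fin r → ℕ) (J : Finset (Fin r)) (ha : 3 ≤ ∑ l ∈ J, ks l)
    (ho : Odd (∑ l ∈ J, ks l)) (he : Even (∑ l, ks l))
    (hS : 24 * ∑ l ∈ J, ks l + 24 ≤ ∑ l, ks l ∨ (∑ l ∈ J, ks l = 3 ∧
      (46 ≤ ∑ l, ks l ∨ ∑ l, ks l = 42 ∨ ∑ l, ks l = 38))) (h : Arrow k ks) :
    ∑ l, ks l + 3 ≤ k := by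
  by_contra hlt
  have hc : ∑ l ∈ J, ks l + ∑ l ∈ Jᶜ, ks l = ∑ l, ks l := sum_add_sum_compl _ _
  obtain ⟨K, hK⟩ : ∃ K, ∑ l, ks l + 2 = 2 * K := by
    obtain ⟨n, hn⟩ := he
    exact ⟨n + 1, by omega⟩
  obtain ⟨m, hm⟩ := ho
  have hA : Arrow (2 * K) ks := arrow_mono (by omega) h
  rcases Nat.lt_or_ge m 2 with h2 | h2
  · exact Slack3.not_arrow_of_W (K := K) (l := 3) (u := 5) (l' := ∑ l, ks l - 3) (by omega)
      (by omega) (Slack3.M99.w00 (by omega)) ks J (by omega) (by omega) hA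
  · exact Slack3.not_arrow_of_W (K := K) (l := 2 * m + 1) (u := 2 * m + 3)
      (l' := ∑ l, ks l - (2 * m + 1)) (by omega) (by omega)
      (Slack3.EndG.w00 (by omega) (by omega)) ks J hm (by omega) hA

theorem odd_case (k r : ℕ) (ks : Fin r → ℕ) (J : Finset (Fin r)) (ha : 3 ≤ ∑ l ∈ J, ks l)
    (hj : Odd (∑ l ∈ J, ks l)) (ho : Odd (∑ l, ks l))
    (hS : 34 * ∑ l ∈ J, ks l + 33 ≤ ∑ l, ks l ∨ (∑ l ∈ J, ks l = 3 ∧
      (86 ≤ ∑ l, ks l ∨ ((∑ l, ks l) % 4 = 1 ∧ 73 ≤ ∑ l, ks l)))) (h : Arrow k ks) :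
    ∑ l, ks l + 3 ≤ k := by
  by_contra hlt
  have hc : ∑ l ∈ J, ks l + ∑ l ∈ Jᶜ, ks l = ∑ l, ks l := sum_add_sum_compl _ _
  obtain ⟨n, hn⟩ := ho
  obtain ⟨m, hm⟩ := hj
  have hA : Arrow (2 * (n + 1) + 1) ks := arrow_mono (by omega) h
  rcases Nat.lt_or_ge m 2 with h2 | h2
  · exact Slack3.OddK.three_odd (h := n + 1) (l' := ∑ l, ks l - 3)
      (by unfold Slack3.OddK.Ok; omega) (by omega) ks J (by omega) (by omega) hA
  · exact Slack3.All93.not_arrow (h := n + 1) (m := m) (l' := ∑ l, ks l - (2 * m + 1))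
      h2 (by omega) (by omega) ks J hm (by omega) hA

theorem near_case (k r : ℕ) (ks : Fin r → ℕ) (J : Finset (Fin r)) (ho : Odd (∑ l ∈ J, ks l))
    (h4 : (∑ l, ks l) % 4 = 2) (h1 : 2 * ∑ l ∈ J, ks l < ∑ l, ks l)
    (h2 : 7 * ∑ l, ks l ≤ 15 * ∑ l ∈ J, ks l) (h : Arrow k ks) : ∑ l, ks l + 3 ≤ k := by
  by_contra hlt
  have hc : ∑ l ∈ J, ks l + ∑ l ∈ Jᶜ, ks l = ∑ l, ks l := sum_add_sum_compl _ _
  obtain ⟨d, hd⟩ : ∃ d, ∑ l, ks l = 2 * ∑ l ∈ J, ks l + 4 * d := by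
    obtain ⟨m, hm⟩ := ho
    exact ⟨(∑ l, ks l - 2 * ∑ l ∈ J, ks l) / 4, by omega⟩
  have hA : Arrow (2 * ∑ l ∈ J, ks l + 4 * d + 2) ks := arrow_mono (by omega) h
  exact Slack3.Bal93.not_arrow ks Jᶜ ho (by omega) (by omega) (by omega)
    (by rw [compl_compl]) hA

theorem far_case (k r : ℕ) (ks : Fin r → ℕ) (J : Finset (Fin r)) (ho : Odd (∑ l ∈ J, ks l))
    (he : Even (∑ l, ks l))
    (hd : ∀ q h : ℤ, 1 ≤ q → q ≤ 60 →
      10 * q + 300 ≤ |q * ((∑ l ∈ J, ks l : ℕ) + 1) - h * ((∑ l, ks l : ℕ) + 2)|)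
    (h : Arrow k ks) : ∑ l, ks l + 3 ≤ k := by
  by_contra hlt
  exact Slack3.AllOdd36.not_arrow ks J ho he hd (arrow_mono (by omega) h)

theorem result (k r : ℕ) (ks : Fin r → ℕ) (J : Finset (Fin r)) (ha : 3 ≤ ∑ l ∈ J, ks l)
    (ho : Odd (∑ l ∈ J, ks l))
    (hS : 34 * ∑ l ∈ J, ks l + 33 ≤ ∑ l, ks l ∨
      (Even (∑ l, ks l) ∧ 24 * ∑ l ∈ J, ks l + 24 ≤ ∑ l, ks l) ∨
      ((∑ l, ks l) % 4 = 2 ∧ 2 * ∑ l ∈ J, ks l < ∑ l, ks l ∧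
        7 * ∑ l, ks l ≤ 15 * ∑ l ∈ J, ks l) ∨
      (Even (∑ l, ks l) ∧ ∀ q h : ℤ, 1 ≤ q → q ≤ 60 →
        10 * q + 300 ≤ |q * ((∑ l ∈ J, ks l : ℕ) + 1) - h * ((∑ l, ks l : ℕ) + 2)|) ∨
      (∑ l ∈ J, ks l = 3 ∧
      (86 ≤ ∑ l, ks l ∨
        (Even (∑ l, ks l) ∧ (46 ≤ ∑ l, ks l ∨ ∑ l, ks l = 42 ∨ ∑ l, ks l = 38)) ∨
        ((∑ l, ks l) % 4 = 1 ∧ 73 ≤ ∑ l, ks l)))) (h : Arrow k ks) :
    ∑ l, ks l + 3 ≤ k := by
  rcases hS with hS | hS | ⟨n1, n2, n3⟩ | ⟨e1, e2⟩ | hS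
  · rcases Nat.even_or_odd (∑ l, ks l) with he | he
    · exact even_case k r ks J ha ho he (Or.inl (by omega)) h
    · exact odd_case k r ks J ha ho he (Or.inl hS) h
  · exact even_case k r ks J ha ho hS.1 (Or.inl hS.2) h
  · exact near_case k r ks J ho n1 n2 n3 h
  · exact far_case k r ks J ho e1 e2 h
  · obtain ⟨h3, hS⟩ := hS
    rcases hS with hS | ⟨hE, hS⟩ | hS
    · rcases Nat.even_or_odd (∑ l, ks l) with he | he
      · exact even_case k r ks J ha ho he (Or.inr ⟨h3, Or.inl (by omega)⟩) h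
      · exact odd_case k r ks J ha ho he (Or.inr ⟨h3, Or.inl hS⟩) h
    · exact even_case k r ks J ha ho hE (Or.inr ⟨h3, hS⟩) h
    · have he : Odd (∑ l, ks l) := by rw [Nat.odd_iff]; omega
      exact odd_case k r ks J ha ho he (Or.inr ⟨h3, Or.inr hS⟩) h

end Pool.Agent.Results.MP_21a058_co.DeVosBoundFails
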