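import Pool.Agent.Lib.MP_21a058_co.SlackTwoL
import Pool.Agent.Lib.MP_21a058_co.RingOdd
import Pool.Agent.Lib.MP_21a058_co.EvenChain
import Pool.Agent.Lib.MP_21a058_co.TwoLe
import Pool.Agent.Lib.MP_21a058_co.RingAll
import Pool.Agent.Lib.MP_21a058_co.EveryPartL
import Pool.Agent.Lib.MP_21a058_co.Prism.Sub21
import Pool.Agent.Lib.MP_21a058_co.Prism.Neck21

/-! Lower bounds for `f(k_1, …, k_r)`, for tuples with a part that is at least 2 and another positive
part. Let `s` be the number of ones, `p` the number of odd parts, `q` the number of positive even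
parts and `t` the number of parts that are `2` modulo `4`. Then
`f ≥ k_1 + … + k_r + max (2, s + 1, p, (4p + q - 5) / 12, (3p + 2t - 4) / 6, (3p + 2t - 15) / 5)`,
with `p - 1` instead of `p` if all positive parts are odd and at least 3. -/

set_option autoImplicit false

namespace Pool.Agent.Results.MP_21a058_co.LowerBounds

open Finset Pool.Agent.Lib.MP_21a058_co
open Pool.Agent.Lib.MP_21a058_co.OnesCount (g2)

theorem sum_g2 (r : ℕ) (ks : Fin r → ℕ) : ∑ l, g2 (ks l) =
    ∑ l, ks l + (univ.filter fun l => ks l = 1).card := by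
  rw [card_filter, ← sum_add_distrib]
  refine sum_congr rfl fun l _ => ?_
  unfold g2
  split_ifs with h
  · omega
  · rfl

theorem other {r : ℕ} {ks : Fin r → ℕ} {i j : Fin r} (hij : i ≠ j) (hi : 2 ≤ ks i)
    (hj : 1 ≤ ks j) (l : Fin r) : ∃ m, m ≠ l ∧ 1 ≤ ks m := by
  by_cases hli : l = i
  · exact ⟨j, fun hjl => hij (hjl.trans hli).symm, hj⟩
  · exact ⟨i, fun hil => hli hil.symm, by omega⟩

/-- The number of edges is not the only obstacle. -/
theorem count_lt (k r : ℕ) (ks : Fin r → ℕ) (i j : Fin r) (hij : i ≠ j) (hi : 2 ≤ ks i)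
    (hj : 1 ≤ ks j) (h : Arrow k ks) :
    ∑ l, ks l + (univ.filter fun l => ks l = 1).card + 1 ≤ k := by
  classical
  rw [← sum_g2]
  rcases Nat.mod_two_eq_zero_or_one (∑ l, g2 (ks l)) with hpar | hpar
  · exact EvenChain.even_count k r (ks i) ks i rfl hi ⟨j, hij.symm, hj⟩ hpar h
  · obtain ⟨l, hl, hl3⟩ : ∃ l, ks l % 2 = 1 ∧ 3 ≤ ks l := by
      by_contra hcon
      push Not at hcon
      have h1 : Even (∑ l, g2 (ks l)) := even_sum _ fun l _ => by
        have h2 := hcon l
        rw [Nat.even_iff]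
        unfold g2
        split_ifs with h3
        · rfl
        · omega
      rw [Nat.even_iff] at h1
      omega
    exact RingOdd.odd_count k r (ks l) ks l rfl hl hl3 (other hij hi hj l) hpar h

theorem two_more (k r : ℕ) (ks : Fin r → ℕ) (i j : Fin r) (hij : i ≠ j) (hi : 2 ≤ ks i)
    (hj : 1 ≤ ks j) (h : Arrow k ks) :
    ∑ l, ks l + max 2 ((univ.filter fun l => ks l = 1).card + 1) ≤ k := by
  classical
  have hc := count_lt k r ks i j hij hi hj h
  by_contra hlt
  push Not at hlt
  have hA : Arrow (∑ l, ks l + 1) ks := arrow_mono (by omega) h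
  have hs0 : (univ.filter fun l => ks l = 1).card = 0 := by omega
  rw [card_eq_zero, filter_eq_empty_iff] at hs0
  have hj1 := hs0 (mem_univ j)
  have hsum : ∑ x ∈ ({i} : Finset (Fin r)), ks x + ∑ x ∈ ({i} : Finset (Fin r))ᶜ, ks x =
      ∑ x, ks x := sum_add_sum_compl _ _
  rw [sum_singleton] at hsum
  have hcj : ks j ≤ ∑ x ∈ ({i} : Finset (Fin r))ᶜ, ks x :=
    single_le_sum (f := ks) (fun _ _ => Nat.zero_le _) (by
      rw [mem_compl, mem_singleton]
      exact hij.symm)
  rcases le_total (ks i) (∑ x ∈ ({i} : Finset (Fin r))ᶜ, ks x) with hle | hge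
  · have hM := SlackTwoL.arrow_merge hA {i}
    rw [sum_singleton, ← hsum] at hM
    exact two_le (ks i) _ hi hle hM
  · have hM := SlackTwoL.arrow_merge hA ({i} : Finset (Fin r))ᶜ
    rw [compl_compl, sum_singleton, ← hsum, add_comm (ks i)] at hM
    exact two_le _ (ks i) (by omega) hge hM

/-- The odd parts. -/
theorem odd_parts (k r : ℕ) (ks : Fin r → ℕ) (i j : Fin r) (hij : i ≠ j) (hi : 2 ≤ ks i)
    (hj : 1 ≤ ks j) (h : Arrow k ks) :
    ∑ l, ks l + (univ.filter fun l => Odd (ks l)).card ≤
      k + if ∃ l, ks l = 1 ∨ (1 ≤ ks l ∧ Even (ks l)) then 0 else 1 := by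
  classical
  have h1 : 2 * ∑ l, (ks l + 1) / 2 =
      ∑ l, ks l + (univ.filter fun l => Odd (ks l)).card := by
    rw [mul_sum, card_filter, ← sum_add_distrib]
    refine sum_congr rfl fun l _ => ?_
    split_ifs with hl
    · rw [Nat.odd_iff] at hl
      omega
    · rw [Nat.not_odd_iff] at hl
      omega
  split_ifs with h2
  · obtain ⟨l, hl⟩ := h2
    have hw : 1 ≤ RingAll.wt (ks l) := by
      unfold RingAll.wt
      rcases hl with hl | ⟨hl, hev⟩
      · rw [if_pos hl]
        norm_num
      · rw [Nat.even_iff] at hev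
        rw [if_neg (by omega), if_neg (by omega)]
        exact hl
    have h3 := RingAll.even_or_one k r ks i j l hij (by omega) hj hw h
    omega
  · have h3 := CycleL.cycle_bound k r ks h
    omega

/-- Every part gains. -/
theorem gains (k r : ℕ) (ks : Fin r → ℕ) (h : Arrow k ks) :
    12 * ∑ l, ks l + (4 * (univ.filter fun l => Odd (ks l)).card +
      (univ.filter fun l => 1 ≤ ks l ∧ Even (ks l)).card) ≤ 12 * k + 5 := by
  classical
  have hlt : ∀ m, m ≤ k + ∑ l, ks l → m < 2 ^ (k + ∑ l, ks l) := fun m hm =>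
    lt_of_le_of_lt hm Nat.lt_two_pow_self
  have hnd : ∀ m, m ≤ k + ∑ l, ks l → 1 ≤ m → ¬ 2 ^ (k + ∑ l, ks l) ∣ m := fun m hm h1 hd =>
    absurd (Nat.le_of_dvd h1 hd) (not_le.mpr (hlt m hm))
  have hE := EveryPartL.every_part k r ks h (k + ∑ l, ks l)
  rw [sum_add_distrib, ← mul_sum] at hE
  have hb : 4 * (univ.filter fun l => Odd (ks l)).card +
      (univ.filter fun l => 1 ≤ ks l ∧ Even (ks l)).card ≤
      ∑ l, bonus (k + ∑ l, ks l) (ks l) := by
    rw [card_filter, card_filter, mul_sum, ← sum_add_distrib]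
    refine sum_le_sum fun l _ => ?_
    have hl : ks l ≤ k + ∑ l, ks l :=
      (single_le_sum (f := ks) (fun _ _ => Nat.zero_le _) (mem_univ l)).trans (Nat.le_add_left _ _)
    unfold bonus
    by_cases ho : Odd (ks l)
    · rw [if_pos ho, if_pos ho, if_neg (fun he => (Nat.not_even_iff_odd.mpr ho) he.2)]
      norm_num
    · rw [if_neg ho, if_neg ho]
      by_cases h1 : 1 ≤ ks l
      · rw [if_pos ⟨h1, Nat.not_odd_iff_even.mp ho⟩, if_neg fun hd => hnd _ hl h1
          ((Dvd.intro _ (pow_succ 2 (k + ∑ l, ks l)).symm).trans hd), if_neg (hnd _ hl h1)]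
        norm_num
      · rw [if_neg fun hh => h1 hh.1]
        exact Nat.zero_le _
  have hr : (if Even k then bonus (k + ∑ l, ks l) k else
      4 + bonus (k + ∑ l, ks l) (k - 1)) ≤ 5 := by
    have hbe : ∀ m, m ≤ k + ∑ l, ks l → Even m → bonus (k + ∑ l, ks l) m ≤ 1 := by
      intro m hm he
      unfold bonus
      rw [if_neg (Nat.not_odd_iff_even.mpr he)]
      rcases Nat.eq_zero_or_pos m with h0 | h1
      · rw [h0, if_pos (dvd_zero _)]
        exact Nat.zero_le _
      · rw [if_neg fun hd => hnd _ hm h1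
          ((Dvd.intro _ (pow_succ 2 (k + ∑ l, ks l)).symm).trans hd), if_neg (hnd _ hm h1)]
    split_ifs with he
    · exact (hbe k (Nat.le_add_right _ _) he).trans (by norm_num)
    · have h4 : Even (k - 1) := by
        rw [Nat.not_even_iff] at he
        rw [Nat.even_iff]
        omega
      have := hbe (k - 1) (by omega) h4
      omega
  omega

/-- The thick prism with subdivided rungs. -/
theorem prism (k r : ℕ) (ks : Fin r → ℕ) (h : Arrow k ks) :
    6 * ∑ l, ks l + (3 * (univ.filter fun l => Odd (ks l)).card +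
      2 * (univ.filter fun l => ks l % 4 = 2).card) ≤ 6 * k + 4 := by
  classical
  refine le_trans (le_of_eq ?_) (Sub21.gains k r ks h)
  rw [card_filter, card_filter, mul_sum, mul_sum, mul_sum, ← sum_add_distrib, ← sum_add_distrib]
  refine sum_congr rfl fun l _ => ?_
  unfold Sub21.gn
  by_cases ho : Odd (ks l)
  · have h1 := Nat.odd_iff.mp ho
    rw [if_pos ho, if_pos h1, if_neg (by omega)]
    omega
  · have h1 := Nat.not_odd_iff.mp ho
    rw [if_neg ho, if_neg (by omega : ¬ ks l % 2 = 1)]
    split_ifs <;> omega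

/-- The thick ring of blocks. -/
theorem neck (k r : ℕ) (ks : Fin r → ℕ) (h : Arrow k ks) :
    5 * ∑ l, ks l + (3 * (univ.filter fun l => Odd (ks l)).card +
      2 * (univ.filter fun l => ks l % 4 = 2).card) ≤ 5 * k + 15 := by
  classical
  refine le_trans (le_of_eq ?_) (Neck21.gains k r ks h)
  rw [card_filter, card_filter, mul_sum, mul_sum, mul_sum, ← sum_add_distrib, ← sum_add_distrib]
  refine sum_congr rfl fun l _ => ?_
  unfold Neck21.gn
  by_cases ho : Odd (ks l)
  · have h1 := Nat.odd_iff.mp ho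
    rw [if_pos ho, if_pos h1, if_neg (by omega)]
    omega
  · have h1 := Nat.not_odd_iff.mp ho
    rw [if_neg ho, if_neg (by omega : ¬ ks l % 2 = 1)]
    split_ifs <;> omega

theorem result (k r : ℕ) (ks : Fin r → ℕ) (i j : Fin r) (hij : i ≠ j) (hi : 2 ≤ ks i)
    (hj : 1 ≤ ks j) (h : Arrow k ks) :
    ∑ l, ks l + max (max (max (max (max 2 ((univ.filter fun l => ks l = 1).card + 1))
      ((univ.filter fun l => Odd (ks l)).card -
        if ∃ l, ks l = 1 ∨ (1 ≤ ks l ∧ Even (ks l)) then 0 else 1))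
      ((4 * (univ.filter fun l => Odd (ks l)).card +
        (univ.filter fun l => 1 ≤ ks l ∧ Even (ks l)).card + 6) / 12))
      ((3 * (univ.filter fun l => Odd (ks l)).card +
        2 * (univ.filter fun l => ks l % 4 = 2).card + 1) / 6))
      ((3 * (univ.filter fun l => Odd (ks l)).card +
        2 * (univ.filter fun l => ks l % 4 = 2).card - 11) / 5) ≤ k := by
  classical
  have h1 := two_more k r ks i j hij hi hj h
  have h2 := odd_parts k r ks i j hij hi hj h
  have h3 := gains k r ks h
  have h4 := prism k r ks h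
  have h5 := neck k r ks h
  omega

end Pool.Agent.Results.MP_21a058_co.LowerBounds
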