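import Pool.Agent.Lib.MP_21a058_co.Swap.Res3

/-! An upper bound for `f(k_1, …, k_r)` below `2 (k_1 + … + k_r)` for all tuples. -/

set_option autoImplicit false

namespace Pool.Agent.Results.MP_21a058_co.SharpAllTuples

open Finset Pool.Agent.Lib.MP_21a058_co

/-- With `S = ∑ i, ks i` and `l = ks j` any part, `f(k_1, …, k_r)` is at most
`2 S - (2 / 3) l + (16 / 3) √l + 44` and, which is better for moderate and for small `l`, at most
`(8 S - l + √(16 S (S - l) + l²)) / 6 + 32` and `S + √(S² - 8 l² / 9) + 4`. -/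
theorem result {r : ℕ} (ks : Fin r → ℕ) (j : Fin r) (k : ℕ)
    (h : 6 * (∑ i, ks i) + 16 * Nat.sqrt (ks j) + 129 ≤ 3 * k + 2 * ks j ∨
      (∃ x : ℕ, 16 * (∑ i, ks i) ^ 2 + (ks j) ^ 2 ≤ x ^ 2 + 16 * ((∑ i, ks i) * ks j) ∧
        8 * (∑ i, ks i) + x + 182 ≤ 6 * k + ks j) ∨
      ∃ m u : ℕ, 2 * m ≤ k ∧ ∑ i, ks i ≤ 2 * m ∧ 2 * ks j ≤ 3 * u ∧
        m * (∑ i, ks i) + u * u ≤ m * m + u * ks j) : Arrow k ks :=
  Swap.all_forms ks j k h

end Pool.Agent.Results.MP_21a058_co.SharpAllTuples
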